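import Pool.Agent.H20.SC.Basic

/-!
Existence and uniqueness of the Gauss extension (MP_f2954d_ag): modules G4 and G4u.
-/

set_option autoImplicit false

namespace SC

namespace H20

open MvPolynomial

section Gens

variable {K L J : Type} [Field K] [Field L] [Algebra K L] {S : J → Sys K} {U : Var S → L}

/-- the nonpivot variables -/
abbrev V0 (S : J → Sys K) (i0 : ∀ j, Fin (S j).r) : Type := {x : Var S // x.2 ≠ i0 x.1}

/-- the pivot variables are combinations of the others -/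
theorem pivot_eq (hrel : ∀ j, ∑ i, algebraMap K L ((S j).s i) * U ⟨j, i⟩ = 0) (i0 : ∀ j, Fin (S j).r)
    (h0 : ∀ j, (S j).s (i0 j) ≠ 0) (j : J) :
    U ⟨j, i0 j⟩ = - ∑ i ∈ Finset.univ.erase (i0 j),
      algebraMap K L ((S j).s i / (S j).s (i0 j)) * U ⟨j, i⟩ := by
  have h1 := hrel j
  rw [← Finset.add_sum_erase _ _ (Finset.mem_univ (i0 j))] at h1
  have h2 : algebraMap K L ((S j).s (i0 j)) ≠ 0 := by
    rw [Ne, map_eq_zero]
    exact h0 j
  have h3 : ∑ i ∈ Finset.univ.erase (i0 j), algebraMap K L ((S j).s i / (S j).s (i0 j)) * U ⟨j, i⟩ =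
      (algebraMap K L ((S j).s (i0 j)))⁻¹ *
        ∑ i ∈ Finset.univ.erase (i0 j), algebraMap K L ((S j).s i) * U ⟨j, i⟩ := by
    rw [Finset.mul_sum]
    refine Finset.sum_congr rfl fun i _ => ?_
    rw [map_div₀]
    ring
  rw [h3, eq_neg_of_add_eq_zero_right h1]
  field_simp

theorem adjoin_V0 (h : IsGen S U) (i0 : ∀ j, Fin (S j).r) (h0 : ∀ j, (S j).s (i0 j) ≠ 0) :
    IntermediateField.adjoin K (Set.range fun x : V0 S i0 => U x.1) = ⊤ := by
  rw [eq_top_iff, ← h.gen, IntermediateField.adjoin_le_iff]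
  rintro _ ⟨⟨j, i⟩, rfl⟩
  by_cases hi : i = i0 j
  · subst hi
    rw [SetLike.mem_coe, pivot_eq h.rel i0 h0 j]
    refine neg_mem (sum_mem fun i hi => ?_)
    refine mul_mem (IntermediateField.algebraMap_mem _ _) (IntermediateField.subset_adjoin _ _ ?_)
    exact ⟨⟨⟨j, i⟩, (Finset.mem_erase.mp hi).1⟩, rfl⟩
  · exact IntermediateField.subset_adjoin _ _ ⟨⟨⟨j, i⟩, hi⟩, rfl⟩

theorem aeval_ne (h : IsGen S U) (i0 : ∀ j, Fin (S j).r) (h0 : ∀ j, (S j).s (i0 j) ≠ 0)
    (q : MvPolynomial (V0 S i0) K) (hq : q ≠ 0) : aeval (fun x : V0 S i0 => U x.1) q ≠ 0 := by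
  intro h1
  exact hq ((h.indep i0 h0) (by rw [h1, map_zero]))

theorem exists_frac (h : IsGen S U) (i0 : ∀ j, Fin (S j).r) (h0 : ∀ j, (S j).s (i0 j) ≠ 0) (y : L)
    (hy : y ≠ 0) : ∃ p q : MvPolynomial (V0 S i0) K, p ≠ 0 ∧ q ≠ 0 ∧
      y = aeval (fun x : V0 S i0 => U x.1) p / aeval (fun x : V0 S i0 => U x.1) q := by
  have h1 : y ∈ IntermediateField.adjoin K (Set.range fun x : V0 S i0 => U x.1) := by
    rw [adjoin_V0 h i0 h0]
    trivial
  rw [IntermediateField.mem_adjoin_range_iff] at h1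
  obtain ⟨p, q, hpq⟩ := h1
  refine ⟨p, q, ?_, ?_, hpq⟩
  · rintro rfl
    rw [map_zero, zero_div] at hpq
    exact hy hpq
  · rintro rfl
    rw [map_zero, div_zero] at hpq
    exact hy hpq

end Gens

/-- independence in terms of `eval₂` -/
theorem eval₂_ne {R A ι : Type} [Field R] [Field A] (φ : R →+* A) (x : ι → A)
    (h : letI : Algebra R A := φ.toAlgebra; AlgebraicIndependent R x) (q : MvPolynomial ι R)
    (hq : q ≠ 0) : eval₂ φ x q ≠ 0 := by
  intro h1
  let _ : Algebra R A := φ.toAlgebra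
  apply hq
  apply h
  rw [map_zero]
  exact h1

theorem indep_of_eval₂_ne {R A ι : Type} [Field R] [Field A] (φ : R →+* A) (x : ι → A)
    (h : ∀ q : MvPolynomial ι R, q ≠ 0 → eval₂ φ x q ≠ 0) :
    letI : Algebra R A := φ.toAlgebra; AlgebraicIndependent R x := by
  let _ : Algebra R A := φ.toAlgebra
  show AlgebraicIndependent R x
  rw [algebraicIndependent_iff]
  intro p hp
  by_contra hne
  exact h p hne hp

theorem g4u : T_G4u := by
  intro k K k' k'' L J _ _ _ _ _ _ _ _ _ _ v w w' S U e φ i0 hS hU hG hO hφ hU0 hi0 hind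
  have hO1 : Over v w 1 := ⟨one_pos, fun x => by rw [hG.ordK]; simp⟩
  obtain ⟨ψ, hψ, hgen⟩ := hG.gen
  have h0 : ∀ j, (S j).s (i0 j) ≠ 0 := fun j => (hi0 j).1
  have hres : ∀ j, (v.res (S j)).s (i0 j) ≠ 0 := by
    intro j
    show v.red ((S j).s (i0 j) * v.unif ^ (- v.mo (S j))) ≠ 0
    have h1 : v.ord ((S j).s (i0 j) * v.unif ^ (- v.mo (S j))) = 0 := by
      rw [v.ord_mul _ _ (h0 j) (zpow_unif_ne v _), ord_zpow_unif, (hi0 j).2]
      omega
    rw [red_ne_zero_iff v (mul_ne_zero (h0 j) (zpow_unif_ne v _)) (by rw [h1])]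
    exact h1
  have hgi : letI : Algebra v.Res w.Res := ψ.toAlgebra
      AlgebraicIndependent v.Res (fun x : V0 S i0 => w.red (U x.1)) := by
    let _ : Algebra v.Res w.Res := ψ.toAlgebra
    exact hgen.indep i0 hres
  have hind1 : ∀ q : MvPolynomial (V0 S i0) v.Res, q ≠ 0 →
      eval₂ ψ (fun x : V0 S i0 => w.red (U x.1)) q ≠ 0 :=
    fun q hq => eval₂_ne ψ _ hgi q hq
  have hind2 : ∀ q : MvPolynomial (V0 S i0) v.Res, q ≠ 0 →
      eval₂ φ (fun x : V0 S i0 => w'.red (U x.1)) q ≠ 0 :=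
    fun q hq => eval₂_ne φ _ hind q hq
  have key : ∀ y : L, w'.ord y = e * w.ord y := by
    intro y
    by_cases hy : y = 0
    · rw [hy, w.ord_zero, w'.ord_zero, mul_zero]
    obtain ⟨p, q, hp, hq, rfl⟩ := exists_frac hU i0 h0 y hy
    obtain ⟨a1, a2⟩ := ord_aeval hO1 hψ (fun x : V0 S i0 => U x.1) (fun x => hG.nonneg x.1) hind1 p hp
    obtain ⟨b1, b2⟩ := ord_aeval hO1 hψ (fun x : V0 S i0 => U x.1) (fun x => hG.nonneg x.1) hind1 q hq
    obtain ⟨_, a4⟩ := ord_aeval hO hφ (fun x : V0 S i0 => U x.1) (fun x => hU0 x.1) hind2 p hp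
    obtain ⟨_, b4⟩ := ord_aeval hO hφ (fun x : V0 S i0 => U x.1) (fun x => hU0 x.1) hind2 q hq
    rw [div_eq_mul_inv, w.ord_mul _ _ a1 (inv_ne_zero b1), w'.ord_mul _ _ a1 (inv_ne_zero b1), w.ord_inv, w'.ord_inv,
      a2, b2, a4, b4]
    push_cast
    ring
  obtain ⟨y, _, hy⟩ := w'.ord_surj
  rw [key] at hy
  have he : (e : ℤ) = 1 := by
    have h1 : (e : ℤ) ∣ 1 := ⟨w.ord y, hy.symm⟩
    have h2 := Int.isUnit_iff.mp (isUnit_of_dvd_one h1)
    rcases h2 with h2 | h2
    · exact h2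
    · omega
  funext y
  rw [key, he, one_mul]

/-! ### Existence -/

section Exist

variable {k K L J : Type} [Field k] [Field K] [Field L] [Algebra k K] [Algebra K L]
  [Algebra k L] [IsScalarTower k K L] {S : J → Sys K} {U : Var S → L}

omit [Algebra k L] [IsScalarTower k K L] in
theorem exists_ordFun (v : DV k K) (hU : IsGen S U) (i0 : ∀ j, Fin (S j).r)
    (h0 : ∀ j, (S j).s (i0 j) ≠ 0) : ∃ F : L → ℤ, F 0 = 0 ∧
    ∀ p q : MvPolynomial (V0 S i0) K, p ≠ 0 → q ≠ 0 →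
      F (aeval (fun x : V0 S i0 => U x.1) p / aeval (fun x : V0 S i0 => U x.1) q) = gv v p - gv v q := by
  classical
  have hne : ∀ q : MvPolynomial (V0 S i0) K, q ≠ 0 → aeval (fun x : V0 S i0 => U x.1) q ≠ 0 :=
    fun q hq => aeval_ne hU i0 h0 q hq
  choose P Q hPQ using fun (y : L) (hy : y ≠ 0) => exists_frac hU i0 h0 y hy
  refine ⟨fun y => if hy : y ≠ 0 then gv v (P y hy) - gv v (Q y hy) else 0, by simp, fun p q hp hq => ?_⟩
  have hy : aeval (fun x : V0 S i0 => U x.1) p / aeval (fun x : V0 S i0 => U x.1) q ≠ 0 :=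
    div_ne_zero (hne p hp) (hne q hq)
  simp only
  rw [dif_pos hy]
  obtain ⟨hP0, hQ0, h1⟩ := hPQ _ hy
  rw [div_eq_div_iff (hne q hq) (hne _ hQ0), ← map_mul, ← map_mul] at h1
  have h2 := hU.indep i0 h0 h1
  have h3 := gv_mul v hp hQ0
  have h4 := gv_mul v hP0 hq
  rw [h2] at h3
  omega

theorem exists_DV (v : DV k K) (hU : IsGen S U) (i0 : ∀ j, Fin (S j).r)
    (h0 : ∀ j, (S j).s (i0 j) ≠ 0) : ∃ w : DV k L,
    ∀ p : MvPolynomial (V0 S i0) K, p ≠ 0 → w.ord (aeval (fun x : V0 S i0 => U x.1) p) = gv v p := by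
  obtain ⟨F, hF0, hF⟩ := exists_ordFun v hU i0 h0
  have hne : ∀ q : MvPolynomial (V0 S i0) K, q ≠ 0 → aeval (fun x : V0 S i0 => U x.1) q ≠ 0 :=
    fun q hq => aeval_ne hU i0 h0 q hq
  have h1gv : gv v (1 : MvPolynomial (V0 S i0) K) = 0 := by
    rw [← C_1, gv_C v one_ne_zero, v.ord_one]
  have hF1 : ∀ p : MvPolynomial (V0 S i0) K, p ≠ 0 → F (aeval (fun x : V0 S i0 => U x.1) p) = gv v p := by
    intro p hp
    have := hF p 1 hp one_ne_zero
    rw [map_one, div_one, h1gv, sub_zero] at this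
    exact this
  have hFC : ∀ c : K, c ≠ 0 → F (algebraMap K L c) = v.ord c := by
    intro c hc
    have := hF1 (C c) (by rwa [Ne, C_eq_zero])
    rw [aeval_C, gv_C v hc] at this
    exact this
  refine ⟨⟨F, hF0, ?_, ?_, ?_, ?_⟩, hF1⟩
  · intro x y hx hy
    obtain ⟨p, q, hp, hq, rfl⟩ := exists_frac hU i0 h0 x hx
    obtain ⟨p', q', hp', hq', rfl⟩ := exists_frac hU i0 h0 y hy
    rw [div_mul_div_comm, ← map_mul, ← map_mul, hF _ _ (mul_ne_zero hp hp') (mul_ne_zero hq hq'), hF _ _ hp hq,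
      hF _ _ hp' hq', gv_mul v hp hp', gv_mul v hq hq']
    ring
  · intro x y hx hy hxy
    obtain ⟨p, q, hp, hq, rfl⟩ := exists_frac hU i0 h0 x hx
    obtain ⟨p', q', hp', hq', rfl⟩ := exists_frac hU i0 h0 y hy
    rw [div_add_div _ _ (hne q hq) (hne q' hq'), ← map_mul, ← map_mul, ← map_mul, ← map_add] at hxy ⊢
    have h2 : p * q' + q * p' ≠ 0 := by
      intro h3
      rw [h3, map_zero, zero_div] at hxy
      exact hxy rfl
    rw [hF _ _ hp hq, hF _ _ hp' hq', hF _ _ h2 (mul_ne_zero hq hq'), gv_mul v hq hq']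
    have h4 := gv_add v (mul_ne_zero hp hq') (mul_ne_zero hq hp') h2
    rw [gv_mul v hp hq', gv_mul v hq hp'] at h4
    omega
  · intro c
    by_cases hc : c = 0
    · rw [hc, map_zero, hF0]
    · rw [IsScalarTower.algebraMap_apply k K L, hFC _ (by simpa using hc), v.ord_base]
  · refine ⟨algebraMap K L v.unif, ?_, ?_⟩
    · rw [Ne, map_eq_zero]
      exact unif_ne v
    · rw [hFC _ (unif_ne v)]
      exact v.ord_surj.choose_spec.2

end Exist

theorem g4 (hr : T_V2r) (hc : T_G1c) : T_G4 := by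
  intro k K L J _ _ _ _ _ _ _ _ v S U hS hU
  choose i0 hi0 using fun j => (mo_spec v (S j) (hS j)).1
  have h0 : ∀ j, (S j).s (i0 j) ≠ 0 := fun j => (hi0 j).1
  obtain ⟨w, hw⟩ := exists_DV v hU i0 h0
  have hne : ∀ q : MvPolynomial (V0 S i0) K, q ≠ 0 → aeval (fun x : V0 S i0 => U x.1) q ≠ 0 :=
    fun q hq => aeval_ne hU i0 h0 q hq
  have hK : ∀ x : K, w.ord (algebraMap K L x) = v.ord x := by
    intro x
    by_cases hx : x = 0
    · rw [hx, map_zero, w.ord_zero, v.ord_zero]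
    · have := hw (C x) (by rwa [Ne, C_eq_zero])
      rwa [aeval_C, gv_C v hx] at this
  have hO : Over v w 1 := ⟨one_pos, fun x => by rw [hK]; simp⟩
  obtain ⟨φ, hφ⟩ := hr k K k L v w 1 hO
  have hU0 : ∀ x : V0 S i0, 0 ≤ w.ord (U x.1) := by
    intro x
    have h1 : rd v (X x : MvPolynomial (V0 S i0) v.vs) ≠ 0 := by
      rw [rd, map_X]
      exact X_ne_zero x
    have h2 := hw (X x) (X_ne_zero x)
    rw [aeval_X] at h2
    have h3 : (ic v (X x) : MvPolynomial (V0 S i0) K) = X x := by rw [ic, map_X]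
    rw [h2, ← h3, gv_of_red v h1]
  have hnonneg : ∀ x, 0 ≤ w.ord (U x) := by
    rintro ⟨j, i⟩
    by_cases hi : i = i0 j
    · subst hi
      rw [pivot_eq hU.rel i0 h0 j, w.ord_neg]
      refine (red_sum' w _ _ fun i hi => ?_).1
      refine ord_nonneg_mul w ?_ (hU0 ⟨⟨j, i⟩, (Finset.mem_erase.mp hi).1⟩)
      rw [hK]
      by_cases hs : (S j).s i = 0
      · rw [hs, zero_div, v.ord_zero]
      · rw [div_eq_mul_inv, v.ord_mul _ _ hs (inv_ne_zero (h0 j)), v.ord_inv, (hi0 j).2]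
        have := (mo_spec v (S j) (hS j)).2 i hs
        omega
    · exact hU0 ⟨⟨j, i⟩, hi⟩
  have hmo : ∀ j i, 0 ≤ v.ord ((S j).s i * v.unif ^ (- v.mo (S j))) := by
    intro j i
    by_cases hs : (S j).s i = 0
    · rw [hs, zero_mul, v.ord_zero]
    · rw [v.ord_mul _ _ hs (zpow_unif_ne v _), ord_zpow_unif]
      have := (mo_spec v (S j) (hS j)).2 i hs
      omega
  have hres : ∀ j, (v.res (S j)).s (i0 j) ≠ 0 := by
    intro j
    show v.red ((S j).s (i0 j) * v.unif ^ (- v.mo (S j))) ≠ 0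
    have h1 : v.ord ((S j).s (i0 j) * v.unif ^ (- v.mo (S j))) = 0 := by
      rw [v.ord_mul _ _ (h0 j) (zpow_unif_ne v _), ord_zpow_unif, (hi0 j).2]
      omega
    rw [red_ne_zero_iff v (mul_ne_zero (h0 j) (zpow_unif_ne v _)) (by rw [h1])]
    exact h1
  refine ⟨w, hK, hnonneg, φ, hφ, ?_⟩
  let _ : Algebra v.Res w.Res := φ.toAlgebra
  refine hc v.Res J w.Res (fun j => v.res (S j)) (fun x : Var S => w.red (U x)) i0 hres ?_ ?_ ?_
  · intro j
    have h1 : ∀ i, algebraMap v.Res w.Res ((v.res (S j)).s i) * w.red (U ⟨j, i⟩) =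
        w.red (algebraMap K L ((S j).s i * v.unif ^ (- v.mo (S j))) * U ⟨j, i⟩) := by
      intro i
      rw [red_mul' w (over_nonneg hO (hmo j i)) (hnonneg _), ← hφ _ (hmo j i)]
      rfl
    have h2 := red_sum' w Finset.univ
      (fun i => algebraMap K L ((S j).s i * v.unif ^ (- v.mo (S j))) * U ⟨j, i⟩)
      (fun i _ => ord_nonneg_mul w (over_nonneg hO (hmo j i)) (hnonneg _))
    have h3 : ∑ i, algebraMap K L ((S j).s i * v.unif ^ (- v.mo (S j))) * U ⟨j, i⟩ = 0 := by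
      have h4 := hU.rel j
      calc _ = algebraMap K L (v.unif ^ (- v.mo (S j))) * ∑ i, algebraMap K L ((S j).s i) * U ⟨j, i⟩ := by
            rw [Finset.mul_sum]
            refine Finset.sum_congr rfl fun i _ => ?_
            rw [map_mul]
            ring
        _ = 0 := by rw [h4, mul_zero]
    rw [h3, red_zero'] at h2
    rw [h2.2]
    exact Finset.sum_congr rfl fun i _ => h1 i
  · refine indep_of_eval₂_ne φ _ fun Q hQ => ?_
    obtain ⟨q0, rfl⟩ := map_surjective (σ := V0 S i0) (IsLocalRing.residue v.vs) IsLocalRing.residue_surjective Q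
    have h1 := red_eval hO hφ (fun x : V0 S i0 => U x.1) hU0 q0
    have h2 : ic v q0 ≠ 0 := by
      intro h3
      apply hQ
      rw [ic_injective v (by rw [h3, map_zero] : ic v q0 = ic v 0), map_zero]
    have h3 := hw _ h2
    rw [gv_of_red v hQ] at h3
    have h4 := (red_ne_zero_iff w (hne _ h2) h1.1).mpr h3
    rw [h1.2] at h4
    exact h4
  · rw [eq_top_iff]
    intro z _
    obtain ⟨⟨y, hy⟩, rfl⟩ := IsLocalRing.residue_surjective z
    by_cases hy0 : y = 0
    · subst hy0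
      have : (⟨0, hy⟩ : w.vs) = 0 := rfl
      rw [this, map_zero]
      exact zero_mem _
    obtain ⟨p, q, hp, hq, hpq⟩ := exists_frac hU i0 h0 y hy0
    obtain ⟨p0, hp1, hp2⟩ := gv_spec v hp
    obtain ⟨q0, hq1, hq2⟩ := gv_spec v hq
    have hord : w.ord y = gv v p - gv v q := by
      rw [hpq, div_eq_mul_inv, w.ord_mul _ _ (hne p hp) (inv_ne_zero (hne q hq)), w.ord_inv, hw p hp, hw q hq]
      ring
    rw [w.mem_vs, hord] at hy
    have hn : (0 : ℤ) ≤ v.ord (v.unif ^ (gv v p - gv v q)) := by rw [ord_zpow_unif]; exact hy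
    -- `y * a(q0) = a(C unif^n p0)`
    set P1 : MvPolynomial (V0 S i0) v.vs := C (⟨_, hn⟩ : v.vs) * p0 with hP1
    have hmem : ∀ Q : MvPolynomial (V0 S i0) v.vs,
        w.red (aeval (fun x : V0 S i0 => U x.1) (ic v Q)) ∈
          IntermediateField.adjoin v.Res (Set.range fun x : Var S => w.red (U x)) := by
      intro Q
      rw [(red_eval hO hφ (fun x : V0 S i0 => U x.1) hU0 Q).2]
      have h5 : eval₂ φ (fun i : V0 S i0 => w.red (U i.1)) (rd v Q) =
          aeval (fun i : V0 S i0 => w.red (U i.1)) (rd v Q) := rfl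
      rw [h5]
      have h6 : aeval (fun i : V0 S i0 => w.red (U i.1)) (rd v Q) ∈
          Algebra.adjoin v.Res (Set.range fun i : V0 S i0 => w.red (U i.1)) := by
        rw [Algebra.adjoin_range_eq_range_aeval]
        exact ⟨_, rfl⟩
      refine IntermediateField.algebra_adjoin_le_adjoin _ _ (Algebra.adjoin_mono ?_ h6)
      rintro _ ⟨i, rfl⟩
      exact ⟨i.1, rfl⟩
    have e1 : aeval (fun x : V0 S i0 => U x.1) (ic v P1) =
        y * aeval (fun x : V0 S i0 => U x.1) (ic v q0) := by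
      have h7 : ic v P1 = C (v.unif ^ (gv v p - gv v q)) * ic v p0 := by
        rw [hP1, map_mul, ic, map_C]
        rfl
      have h8 : aeval (fun x : V0 S i0 => U x.1) p = algebraMap K L (v.unif ^ gv v p) *
          aeval (fun x : V0 S i0 => U x.1) (ic v p0) := by
        conv_lhs => rw [hp1]
        rw [map_mul, aeval_C]
      have h9 : aeval (fun x : V0 S i0 => U x.1) q = algebraMap K L (v.unif ^ gv v q) *
          aeval (fun x : V0 S i0 => U x.1) (ic v q0) := by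
        conv_lhs => rw [hq1]
        rw [map_mul, aeval_C]
      have h10 : aeval (fun x : V0 S i0 => U x.1) (ic v q0) ≠ 0 := by
        intro h11
        rw [h11, mul_zero] at h9
        exact hne q hq h9
      have h12 : algebraMap K L (v.unif ^ gv v q) ≠ 0 := by
        rw [Ne, map_eq_zero]
        exact zpow_unif_ne v _
      rw [h7, map_mul, aeval_C, hpq, h8, h9, zpow_sub₀ (unif_ne v), map_div₀]
      field_simp
    have hq3 := red_eval hO hφ (fun x : V0 S i0 => U x.1) hU0 q0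
    have hq4 : ic v q0 ≠ 0 := by
      intro h3
      apply hq2
      rw [ic_injective v (by rw [h3, map_zero] : ic v q0 = ic v 0), map_zero]
    have hq5 : w.red (aeval (fun x : V0 S i0 => U x.1) (ic v q0)) ≠ 0 := by
      rw [red_ne_zero_iff w (hne _ hq4) hq3.1, hw _ hq4, gv_of_red v hq2]
    have hy' : (0 : ℤ) ≤ w.ord y := by rw [hord]; exact hy
    have e2 : w.red (aeval (fun x : V0 S i0 => U x.1) (ic v P1)) =
        w.red y * w.red (aeval (fun x : V0 S i0 => U x.1) (ic v q0)) := by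
      rw [e1, red_mul' w hy' hq3.1]
    have e3 : IsLocalRing.residue w.vs ⟨y, by exact hy'⟩ =
        w.red (aeval (fun x : V0 S i0 => U x.1) (ic v P1)) /
          w.red (aeval (fun x : V0 S i0 => U x.1) (ic v q0)) := by
      rw [e2, mul_div_cancel_right₀ _ hq5, red_def w hy']
    rw [e3]
    exact div_mem (hmem P1) (hmem q0)

end H20

end SC
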