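import Pool.Agent.H93.SC.Targets2

/-!
Gauss extensions of discrete valuations (MP_f2954d_ag): reduction maps, minimal orders and the
Gauss value of a polynomial.
-/

set_option autoImplicit false

namespace SC

namespace H20

open MvPolynomial

section DV

variable {k K : Type} [Field k] [Field K] [Algebra k K] (v : DV k K)

theorem ord_zpow_unif (n : ℤ) : v.ord (v.unif ^ n) = n := by
  have h0 : v.unif ≠ 0 := v.ord_surj.choose_spec.1
  have h1 : v.ord v.unif = 1 := v.ord_surj.choose_spec.2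
  have hnat : ∀ n : ℕ, v.ord (v.unif ^ n) = n := by
    intro n
    induction n with
    | zero => rw [pow_zero, v.ord_one]; rfl
    | succ n ih =>
      rw [pow_succ, v.ord_mul _ _ (pow_ne_zero _ h0) h0, ih, h1]
      push_cast
      ring
  cases n with
  | ofNat n => rw [Int.ofNat_eq_natCast, zpow_natCast, hnat]
  | negSucc n =>
    rw [zpow_negSucc, v.ord_inv, hnat]
    rw [Int.negSucc_eq]
    push_cast
    ring

theorem unif_ne : v.unif ≠ 0 := v.ord_surj.choose_spec.1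

theorem zpow_unif_ne (n : ℤ) : v.unif ^ n ≠ 0 := zpow_ne_zero _ (unif_ne v)

theorem ord_nonneg_mul {x y : K} (hx : 0 ≤ v.ord x) (hy : 0 ≤ v.ord y) : 0 ≤ v.ord (x * y) :=
  v.vs.mul_mem x y hx hy

theorem ord_nonneg_add {x y : K} (hx : 0 ≤ v.ord x) (hy : 0 ≤ v.ord y) : 0 ≤ v.ord (x + y) :=
  v.vs.add_mem x y hx hy

theorem red_def {x : K} (hx : 0 ≤ v.ord x) : v.red x = IsLocalRing.residue v.vs ⟨x, hx⟩ := by
  unfold DV.red
  rw [dif_pos hx]

theorem red_coe (x : v.vs) : v.red (x : K) = IsLocalRing.residue v.vs x := red_def v x.2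

theorem red_mul' {x y : K} (hx : 0 ≤ v.ord x) (hy : 0 ≤ v.ord y) : v.red (x * y) = v.red x * v.red y := by
  rw [red_def v hx, red_def v hy, red_def v (ord_nonneg_mul v hx hy), ← map_mul]
  rfl

theorem red_add' {x y : K} (hx : 0 ≤ v.ord x) (hy : 0 ≤ v.ord y) : v.red (x + y) = v.red x + v.red y := by
  rw [red_def v hx, red_def v hy, red_def v (ord_nonneg_add v hx hy), ← map_add]
  rfl

theorem red_zero' : v.red 0 = 0 := by
  have h : (0 : ℤ) ≤ v.ord 0 := by rw [v.ord_zero]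
  rw [red_def v h, show (⟨0, h⟩ : v.vs) = 0 from rfl, map_zero]

theorem red_one' : v.red 1 = 1 := by
  have h : (0 : ℤ) ≤ v.ord 1 := by rw [v.ord_one]
  rw [red_def v h, show (⟨1, h⟩ : v.vs) = 1 from rfl, map_one]

theorem red_sum' {ι : Type*} (s : Finset ι) (f : ι → K) (hf : ∀ i ∈ s, 0 ≤ v.ord (f i)) :
    0 ≤ v.ord (∑ i ∈ s, f i) ∧ v.red (∑ i ∈ s, f i) = ∑ i ∈ s, v.red (f i) := by
  classical
  induction s using Finset.induction_on with
  | empty => simp [v.ord_zero, red_zero']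
  | insert a s ha ih =>
    have h1 := ih fun i hi => hf i (Finset.mem_insert_of_mem hi)
    have h2 := hf a (Finset.mem_insert_self a s)
    rw [Finset.sum_insert ha, Finset.sum_insert ha]
    exact ⟨ord_nonneg_add v h2 h1.1, by rw [red_add' v h2 h1.1, h1.2]⟩

/-- the reduction vanishes exactly at the elements of positive order -/
theorem residue_eq_zero_iff' (x : v.vs) : IsLocalRing.residue v.vs x = 0 ↔ (x : K) = 0 ∨ 0 < v.ord (x : K) := by
  rw [IsLocalRing.residue_eq_zero_iff, IsLocalRing.mem_maximalIdeal, mem_nonunits_iff]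
  constructor
  · intro h
    by_contra hcon
    push Not at hcon
    have h0 : v.ord (x : K) = 0 := le_antisymm hcon.2 x.2
    apply h
    have hinv : (0 : ℤ) ≤ v.ord (x : K)⁻¹ := by rw [v.ord_inv, h0]; rfl
    refine ⟨⟨x, ⟨(x : K)⁻¹, hinv⟩, ?_, ?_⟩, rfl⟩
    · ext
      exact mul_inv_cancel₀ hcon.1
    · ext
      exact inv_mul_cancel₀ hcon.1
  · rintro h ⟨u, hu⟩
    have h1 : ((u : v.vs) : K) * ((u⁻¹ : v.vsˣ) : v.vs) = 1 := by
      exact congrArg (Subtype.val : v.vs → K) u.mul_inv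
    have h2 : ((u : v.vs) : K) ≠ 0 := left_ne_zero_of_mul (by rw [h1]; exact one_ne_zero)
    have h3 : (((u⁻¹ : v.vsˣ) : v.vs) : K) ≠ 0 := right_ne_zero_of_mul (by rw [h1]; exact one_ne_zero)
    have h4 := v.ord_mul _ _ h2 h3
    rw [h1, v.ord_one] at h4
    have h5 : (0 : ℤ) ≤ v.ord (((u⁻¹ : v.vsˣ) : v.vs) : K) := ((u⁻¹ : v.vsˣ) : v.vs).2
    rw [← hu] at h
    rcases h with h | h
    · exact h2 h
    · omega

theorem red_ne_zero_iff {x : K} (hx0 : x ≠ 0) (hx : 0 ≤ v.ord x) : v.red x ≠ 0 ↔ v.ord x = 0 := by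
  rw [red_def v hx, Ne, residue_eq_zero_iff']
  simp only [hx0, false_or]
  omega

theorem ord_eq_zero_of_red_ne {x : K} (hx : 0 ≤ v.ord x) (h : v.red x ≠ 0) : x ≠ 0 ∧ v.ord x = 0 := by
  have h0 : x ≠ 0 := by
    rintro rfl
    exact h (red_zero' v)
  exact ⟨h0, (red_ne_zero_iff v h0 hx).mp h⟩

/-! ### The minimal order on a system -/

theorem mo_spec (S : Sys K) (hS : S.Nz) :
    (∃ i, S.s i ≠ 0 ∧ v.ord (S.s i) = v.mo S) ∧ ∀ i, S.s i ≠ 0 → v.mo S ≤ v.ord (S.s i) := by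
  have hfin : {z | ∃ i, S.s i ≠ 0 ∧ v.ord (S.s i) = z}.Finite := by
    refine (Set.finite_range fun i => v.ord (S.s i)).subset ?_
    rintro z ⟨i, _, hi⟩
    exact ⟨i, hi⟩
  have hne : {z | ∃ i, S.s i ≠ 0 ∧ v.ord (S.s i) = z}.Nonempty := by
    obtain ⟨i, hi⟩ := hS
    exact ⟨_, i, hi, rfl⟩
  constructor
  · exact Int.csInf_mem hne hfin.bddBelow
  · intro i hi
    exact csInf_le hfin.bddBelow ⟨i, hi, rfl⟩

end DV

/-! ### The Gauss value of a polynomial -/

section Poly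

variable {k K : Type} [Field k] [Field K] [Algebra k K] (v : DV k K) {σ : Type}

/-- the reduction of a polynomial with coefficients in the valuation ring -/
noncomputable abbrev rd : MvPolynomial σ v.vs →+* MvPolynomial σ v.Res := map (IsLocalRing.residue v.vs)

/-- the inclusion of the polynomials with coefficients in the valuation ring -/
noncomputable abbrev ic : MvPolynomial σ v.vs →+* MvPolynomial σ K := map v.vs.subtype

theorem ic_injective : Function.Injective (ic v : MvPolynomial σ v.vs →+* MvPolynomial σ K) :=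
  map_injective _ (Subtype.val_injective)

/-- `q` has value `z`: `q` is `unif ^ z` times an integral polynomial with nonzero reduction -/
def HasVal (q : MvPolynomial σ K) (z : ℤ) : Prop :=
  ∃ q0 : MvPolynomial σ v.vs, q = C (v.unif ^ z) * ic v q0 ∧ rd v q0 ≠ 0

theorem integral_of_coeff (q : MvPolynomial σ K) (h : ∀ m, 0 ≤ v.ord (q.coeff m)) :
    ∃ q0 : MvPolynomial σ v.vs, ic v q0 = q := by
  have h1 : q ∈ Set.range (ic v : MvPolynomial σ v.vs →+* MvPolynomial σ K) := by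
    rw [ic, mem_range_map_iff_coeffs_subset]
    intro c hc
    rw [Finset.mem_coe, mem_coeffs_iff] at hc
    obtain ⟨m, _, rfl⟩ := hc
    exact ⟨⟨q.coeff m, h m⟩, rfl⟩
  exact h1

theorem exists_hasVal (q : MvPolynomial σ K) (hq : q ≠ 0) : ∃ z, HasVal v q z := by
  have hne : q.support.Nonempty := by
    rwa [Finset.nonempty_iff_ne_empty, Ne, MvPolynomial.support_eq_empty]
  obtain ⟨m0, hm0, hmin⟩ := q.support.exists_min_image (fun m => v.ord (q.coeff m)) hne
  set z := v.ord (q.coeff m0) with hz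
  have hc0 : q.coeff m0 ≠ 0 := by rwa [MvPolynomial.mem_support_iff] at hm0
  obtain ⟨q0, hq0⟩ := integral_of_coeff v (C (v.unif ^ (-z)) * q) (by
    intro m
    rw [coeff_C_mul]
    by_cases hm : q.coeff m = 0
    · rw [hm, mul_zero, v.ord_zero]
    · rw [v.ord_mul _ _ (zpow_unif_ne v _) hm, ord_zpow_unif]
      have := hmin m (by rwa [MvPolynomial.mem_support_iff])
      omega)
  refine ⟨z, q0, ?_, ?_⟩
  · rw [hq0, ← mul_assoc, ← C_mul, ← zpow_add₀ (unif_ne v), add_neg_cancel, zpow_zero, C_1, one_mul]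
  · intro h0
    have h1 : (rd v q0).coeff m0 = 0 := by rw [h0, coeff_zero]
    rw [rd, coeff_map, residue_eq_zero_iff'] at h1
    have h2 : ((q0.coeff m0 : v.vs) : K) = v.unif ^ (-z) * q.coeff m0 := by
      have : (ic v q0).coeff m0 = (C (v.unif ^ (-z)) * q).coeff m0 := by rw [hq0]
      rw [coeff_C_mul, ic, coeff_map] at this
      exact this
    rw [h2] at h1
    rcases h1 with h1 | h1
    · exact mul_ne_zero (zpow_unif_ne v _) hc0 h1
    · rw [v.ord_mul _ _ (zpow_unif_ne v _) hc0, ord_zpow_unif] at h1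
      omega

theorem rd_C_mul_unif (n : ℕ) (hn : 0 < n) (q0 q1 : MvPolynomial σ v.vs)
    (h : ic v q1 = C (v.unif ^ (n : ℤ)) * ic v q0) : rd v q1 = 0 := by
  have hu : (0 : ℤ) ≤ v.ord (v.unif ^ (n : ℤ)) := by rw [ord_zpow_unif]; omega
  have h1 : q1 = C (⟨v.unif ^ (n : ℤ), hu⟩ : v.vs) * q0 := by
    apply ic_injective v
    rw [h, map_mul, ic, map_C]
    rfl
  rw [h1, map_mul, rd, map_C]
  have h2 : IsLocalRing.residue v.vs ⟨v.unif ^ (n : ℤ), hu⟩ = 0 := by
    rw [residue_eq_zero_iff']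
    right
    show 0 < v.ord (v.unif ^ (n : ℤ))
    rw [ord_zpow_unif]
    omega
  rw [h2, C_0, zero_mul]

theorem hasVal_le {q : MvPolynomial σ K} {z z' : ℤ} (h : HasVal v q z) (q1 : MvPolynomial σ v.vs)
    (h' : q = C (v.unif ^ z') * ic v q1) : z' ≤ z := by
  by_contra hcon
  push Not at hcon
  obtain ⟨q0, h0, h1⟩ := h
  apply h1
  refine rd_C_mul_unif v (z' - z).toNat (by omega) q1 q0 ?_
  rw [h0] at h'
  have h2 : C (v.unif ^ (-z)) * (C (v.unif ^ z) * ic v q0) = C (v.unif ^ (-z)) * (C (v.unif ^ z') * ic v q1) := by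
    rw [h']
  rw [← mul_assoc, ← mul_assoc, ← C_mul, ← C_mul, ← zpow_add₀ (unif_ne v), ← zpow_add₀ (unif_ne v), neg_add_cancel,
    zpow_zero, C_1, one_mul] at h2
  rw [h2]
  congr 3
  omega

theorem hasVal_unique {q : MvPolynomial σ K} {z z' : ℤ} (h : HasVal v q z) (h' : HasVal v q z') : z = z' := by
  obtain ⟨q0, h0, h1⟩ := id h
  obtain ⟨q0', h0', h1'⟩ := id h'
  exact le_antisymm (hasVal_le v h' q0 h0) (hasVal_le v h q0' h0')

theorem hasVal_mul {q q' : MvPolynomial σ K} {z z' : ℤ} (h : HasVal v q z) (h' : HasVal v q' z') :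
    HasVal v (q * q') (z + z') := by
  obtain ⟨q0, h0, h1⟩ := h
  obtain ⟨q0', h0', h1'⟩ := h'
  refine ⟨q0 * q0', ?_, ?_⟩
  · rw [h0, h0', zpow_add₀ (unif_ne v), C_mul, map_mul]
    ring
  · rw [map_mul]
    exact mul_ne_zero h1 h1'

theorem hasVal_add {q q' : MvPolynomial σ K} {z z' z'' : ℤ} (h : HasVal v q z) (h' : HasVal v q' z')
    (h'' : HasVal v (q + q') z'') : min z z' ≤ z'' := by
  obtain ⟨q0, h0, h1⟩ := h
  obtain ⟨q0', h0', h1'⟩ := h'
  have ha : (0 : ℤ) ≤ v.ord (v.unif ^ (z - min z z')) := by rw [ord_zpow_unif]; omega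
  have hb : (0 : ℤ) ≤ v.ord (v.unif ^ (z' - min z z')) := by rw [ord_zpow_unif]; omega
  refine hasVal_le v h'' (C (⟨_, ha⟩ : v.vs) * q0 + C (⟨_, hb⟩ : v.vs) * q0') ?_
  rw [h0, h0', map_add, map_mul, map_mul, ic, map_C, map_C]
  show _ = C (v.unif ^ min z z') * (C (v.unif ^ (z - min z z')) * _ + C (v.unif ^ (z' - min z z')) * _)
  rw [mul_add, ← mul_assoc, ← mul_assoc, ← C_mul, ← C_mul, ← zpow_add₀ (unif_ne v), ← zpow_add₀ (unif_ne v),
    add_sub_cancel, add_sub_cancel]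

open Classical in
/-- the Gauss value -/
noncomputable def gv (q : MvPolynomial σ K) : ℤ := if h : q ≠ 0 then (exists_hasVal v q h).choose else 0

theorem gv_spec {q : MvPolynomial σ K} (hq : q ≠ 0) : HasVal v q (gv v q) := by
  unfold gv
  rw [dif_pos hq]
  exact (exists_hasVal v q hq).choose_spec

theorem gv_eq {q : MvPolynomial σ K} {z : ℤ} (h : HasVal v q z) : gv v q = z := by
  have hq : q ≠ 0 := by
    obtain ⟨q0, h0, h1⟩ := h
    rintro rfl
    apply h1
    have h2 : ic v q0 = 0 := by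
      rcases mul_eq_zero.mp h0.symm with h3 | h3
      · exact absurd (C_eq_zero.mp h3) (zpow_unif_ne v _)
      · exact h3
    have h4 : q0 = 0 := ic_injective v (by rw [h2, map_zero])
    rw [h4, map_zero]
  exact hasVal_unique v (gv_spec v hq) h

theorem gv_mul {q q' : MvPolynomial σ K} (hq : q ≠ 0) (hq' : q' ≠ 0) : gv v (q * q') = gv v q + gv v q' :=
  gv_eq v (hasVal_mul v (gv_spec v hq) (gv_spec v hq'))

theorem gv_add {q q' : MvPolynomial σ K} (hq : q ≠ 0) (hq' : q' ≠ 0) (h : q + q' ≠ 0) :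
    min (gv v q) (gv v q') ≤ gv v (q + q') :=
  hasVal_add v (gv_spec v hq) (gv_spec v hq') (gv_spec v h)

theorem hasVal_C {c : K} (hc : c ≠ 0) : HasVal v (C c : MvPolynomial σ K) (v.ord c) := by
  have h0 : (0 : ℤ) ≤ v.ord (c * v.unif ^ (- v.ord c)) := by
    rw [v.ord_mul _ _ hc (zpow_unif_ne v _), ord_zpow_unif]
    omega
  refine ⟨C ⟨c * v.unif ^ (- v.ord c), h0⟩, ?_, ?_⟩
  · rw [ic, map_C]
    show _ = C (v.unif ^ v.ord c) * C (c * v.unif ^ (- v.ord c))
    rw [← C_mul]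
    congr 1
    rw [mul_left_comm, ← zpow_add₀ (unif_ne v), add_neg_cancel, zpow_zero, mul_one]
  · intro hz
    rw [rd, map_C, C_eq_zero, residue_eq_zero_iff'] at hz
    rcases hz with hz | hz
    · exact mul_ne_zero hc (zpow_unif_ne v _) hz
    · change 0 < v.ord (c * v.unif ^ (- v.ord c)) at hz
      rw [v.ord_mul _ _ hc (zpow_unif_ne v _), ord_zpow_unif] at hz
      omega

theorem gv_C {c : K} (hc : c ≠ 0) : gv v (C c : MvPolynomial σ K) = v.ord c := gv_eq v (hasVal_C v hc)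

theorem gv_of_red {q0 : MvPolynomial σ v.vs} (h : rd v q0 ≠ 0) : gv v (ic v q0) = 0 :=
  gv_eq v ⟨q0, by rw [zpow_zero, C_1, one_mul], h⟩

theorem gv_integral {q0 : MvPolynomial σ v.vs} (h : q0 ≠ 0) : 0 ≤ gv v (ic v q0) := by
  have h1 : ic v q0 ≠ 0 := fun h2 => h (ic_injective v (by rw [h2, map_zero]))
  exact hasVal_le v (gv_spec v h1) q0 (by rw [zpow_zero, C_1, one_mul])

end Poly

/-! ### Reduction of polynomials evaluated in an extension -/

section Eval

variable {k K k' L : Type} [Field k] [Field K] [Algebra k K] [Field k'] [Field L] [Algebra k' L]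
  [Algebra K L] {ι : Type}

theorem over_nonneg {v : DV k K} {w : DV k' L} {e : ℕ} (h : Over v w e) {x : K} (hx : 0 ≤ v.ord x) :
    0 ≤ w.ord (algebraMap K L x) := by
  rw [h.2]
  positivity

/-- evaluation and reduction commute -/
theorem red_eval {v : DV k K} {w : DV k' L} {e : ℕ} (h : Over v w e) {φ : v.Res →+* w.Res}
    (hφ : ResCompat v w φ) (x : ι → L) (hx : ∀ i, 0 ≤ w.ord (x i)) (q : MvPolynomial ι v.vs) :
    0 ≤ w.ord (aeval x (ic v q)) ∧
      w.red (aeval x (ic v q)) = eval₂ φ (fun i => w.red (x i)) (rd v q) := by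
  induction q using MvPolynomial.induction_on with
  | C a =>
    have h1 : aeval x (ic v (C a : MvPolynomial ι v.vs)) = algebraMap K L (a : K) := by
      rw [ic, map_C, aeval_C]
      rfl
    rw [h1]
    refine ⟨over_nonneg h a.2, ?_⟩
    rw [rd, map_C, eval₂_C, ← red_coe, hφ _ a.2]
  | add p q hp hq =>
    rw [map_add, map_add, map_add, eval₂_add]
    exact ⟨ord_nonneg_add w hp.1 hq.1, by rw [red_add' w hp.1 hq.1, hp.2, hq.2]⟩
  | mul_X p i hp =>
    rw [map_mul, map_mul, map_mul, eval₂_mul]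
    have h1 : aeval x (ic v (X i : MvPolynomial ι v.vs)) = x i := by
      rw [ic, map_X, aeval_X]
    rw [h1, rd, map_X, eval₂_X]
    exact ⟨ord_nonneg_mul w hp.1 (hx i), by rw [red_mul' w hp.1 (hx i), hp.2]⟩

/-- the order of a polynomial at a point with independent residues -/
theorem ord_aeval {v : DV k K} {w : DV k' L} {e : ℕ} (h : Over v w e) {φ : v.Res →+* w.Res}
    (hφ : ResCompat v w φ) (x : ι → L) (hx : ∀ i, 0 ≤ w.ord (x i))
    (hind : ∀ q : MvPolynomial ι v.Res, q ≠ 0 → eval₂ φ (fun i => w.red (x i)) q ≠ 0)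
    (q : MvPolynomial ι K) (hq : q ≠ 0) : aeval x q ≠ 0 ∧ w.ord (aeval x q) = e * gv v q := by
  obtain ⟨q0, h0, h1⟩ := gv_spec v hq
  have h2 := red_eval h hφ x hx q0
  have h3 : w.red (aeval x (ic v q0)) ≠ 0 := by
    rw [h2.2]
    exact hind _ h1
  obtain ⟨h4, h5⟩ := ord_eq_zero_of_red_ne w h2.1 h3
  have h6 : algebraMap K L (v.unif ^ gv v q) ≠ 0 := by
    rw [Ne, map_eq_zero]
    exact zpow_unif_ne v _
  have h7 : aeval x q = algebraMap K L (v.unif ^ gv v q) * aeval x (ic v q0) := by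
    conv_lhs => rw [h0]
    rw [map_mul, aeval_C]
  rw [h7]
  refine ⟨mul_ne_zero h6 h4, ?_⟩
  rw [w.ord_mul _ _ h6 h4, h5, h.2, ord_zpow_unif, add_zero]

end Eval

end H20

end SC
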